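import Pool.Agent.ASE.StmtsX
import Pool.Agent.Helper31_ASD.L4D

/-!
# Squad ASE, row KAE: the number of modular characters modulo `ℓ ^ 2`
-/

set_option autoImplicit false

open scoped BigOperators

noncomputable section

namespace Pool.Agent.PP.SE.H4

open Pool.Agent.Helper51_AWC Pool.Agent.Helper79_WRA Pool.Agent.PP Pool.Agent.PP.KF
open Pool.Agent.PP.K9 Pool.Agent.PP.K9.H97 Pool.Agent.PP.H75 Pool.Agent.PP.T3 Pool.Agent.PP.SO
open Pool.Agent.PP.SD Pool.Agent.PP.SE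

attribute [local instance] Ideal.Quotient.field

section gp

variable {V₀ : Type} [CommGroup V₀] [Finite V₀] {ℓ : ℕ} [hℓ : Fact ℓ.Prime]
  {E₀ : Subgroup (MulAut V₀)}

theorem finE : Finite (MulAut V₀) :=
  Finite.of_injective (fun σ : MulAut V₀ => (fun v => σ v : V₀ → V₀)) fun _ _ h =>
    MulEquiv.ext fun v => congrFun h v

theorem nS_pos (W : Subgroup V₀) : 0 < nS E₀ W := by
  have : Finite (MulAut V₀) := finE
  exact Nat.card_pos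

theorem card_of {W : Subgroup V₀} (hF : Fq ℓ V₀ E₀) (h1 : W ≠ ⊥) (h2 : W ≠ ⊤) :
    Nat.card W = ℓ := by
  have h3 : Nat.card W ∣ ℓ ^ 2 := by
    rw [← hF.cd]
    exact Subgroup.card_subgroup_dvd_card W
  obtain ⟨k, hk, hk'⟩ := (Nat.dvd_prime_pow hℓ.out).1 h3
  interval_cases k
  · exfalso
    rw [pow_zero] at hk'
    exact h1 (Subgroup.card_eq_one.1 hk')
  · rw [hk', pow_one]
  · exfalso
    apply h2
    apply Subgroup.eq_top_of_card_eq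
    rw [hk', hF.cd]

theorem rw_or {W : Subgroup V₀} (hF : Fq ℓ V₀ E₀) (h1 : W ≠ ⊥) :
    (Rw E₀ W ∧ nS E₀ W = 1) ∨ W ∈ RL ℓ E₀ := by
  have : Finite (MulAut V₀) := finE
  by_cases h : nS E₀ W = 1
  · left
    refine ⟨⟨h1, fun σ hσ h3 => ?_⟩, h⟩
    have h4 : (⟨σ, hσ, h3⟩ : St E₀ W) = 1 := by
      have h5 : Subsingleton (St E₀ W) := (Nat.card_eq_one_iff_unique.1 h).1
      exact Subsingleton.elim _ _
    exact congrArg Subtype.val h4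
  · right
    refine ⟨?_, ?_⟩
    · apply card_of hF h1
      intro h3
      apply h
      apply Nat.card_eq_one_iff_unique.2
      refine ⟨⟨fun a b => ?_⟩, ⟨1⟩⟩
      apply Subtype.ext
      apply MulEquiv.ext
      intro v
      rw [a.2.2 v (by rw [h3]; trivial), b.2.2 v (by rw [h3]; trivial)]
    · have := nS_pos (E₀ := E₀) W
      omega

end gp

theorem sgn {ℓ : ℕ} [hℓ : Fact ℓ.Prime] (h2 : ℓ ≠ 2) {a q q' : ℚ} (hq : q ∈ SOR.Rl ℓ)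
    (hq' : q' ∈ SOR.Rl ℓ) (h : a = 1 + ℓ * q) (h' : -a = 1 + ℓ * q') : False := by
  have h1 : (2 : ℚ) = ℓ * (-q - q') := by linarith
  obtain ⟨s, hs, hs'⟩ : ∃ s ∈ SOR.Rl ℓ, s = -q - q' :=
    ⟨_, (SOR.Rl ℓ).sub_mem ((SOR.Rl ℓ).neg_mem hq) hq', rfl⟩
  rw [← hs'] at h1
  have h3 : (2 : ℚ) * s.den = ℓ * s.num := by
    rw [h1, mul_assoc, Rat.mul_den_eq_num]
  have h4 : (2 : ℤ) * s.den = ℓ * s.num := by exact_mod_cast h3
  have h5 : (ℓ : ℤ) ∣ 2 * s.den := ⟨_, h4⟩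
  have h6 : ℓ ∣ 2 * s.den := by exact_mod_cast h5
  rcases (hℓ.out.dvd_mul).1 h6 with h7 | h7
  · exact h2 ((Nat.prime_dvd_prime_iff_eq hℓ.out Nat.prime_two).1 h7)
  · exact hs h7

/-- KAE -/
theorem kae (hrsx : RsxStmt) (hcme : CmeStmt) (hlme : LmeStmt) (hfxe : FxeStmt)
    (hcge : CgeStmt) (hxce : XceStmt) (hkld : KldStmt) (hpex : PexStmt) : KaeStmt := by
  intro ℓ _ M _ hM h5 V₀ G _ _ _ _ E₀ hF B hB
  have hℓ : ℓ.Prime := Fact.out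
  have h2 : ℓ ≠ 2 := by omega
  obtain ⟨xc, hxc⟩ := hxce ℓ M hM h2 V₀ G E₀ hF B hB
  obtain ⟨D, hD, hDU, hDX, hDs, hDf⟩ := hrsx ℓ M hM h2 V₀ G E₀ hF B hB xc hxc
  obtain ⟨r, m, hr, hm⟩ := hpex ℓ G
  obtain ⟨K, hK⟩ := hcme ℓ M hM h5 V₀ G E₀ hF B hB D hD r hr ⟨m, hm⟩
  obtain ⟨G', _, _, B', xc', κ, hB', hPE, hLam, hln, hxc', hRw, hRL, hκ⟩ :=
    hcge ℓ M hM h2 V₀ G E₀ hF B hB (K + 1) D.U hD.ut hD.u1 hD.ue
  obtain ⟨D', hD', hDU', hDX', hDs', hDf'⟩ := hrsx ℓ M hM h2 V₀ G' E₀ hF B' hB' xc' hxc'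
  -- the numbers `U`
  have hU : ∀ W, W ≠ ⊥ → D'.U W = κ W := by
    intro W hW
    rcases rw_or hF hW with ⟨h, -⟩ | h
    · rw [hDU' W h, hRw W h]
    · obtain ⟨χ, hχ, he⟩ := hRL W h
      rcases hDX' W h χ hχ with h1 | h1
      · rw [he] at h1
        exact_mod_cast h1
      · exfalso
        rw [he] at h1
        have h3 : D'.U W = -(κ W : ℚ) := by exact_mod_cast h1
        obtain ⟨q, hq, h4⟩ := hD'.u1 W hW
        obtain ⟨q', hq', h6⟩ := hD.u1 W hW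
        obtain ⟨s, hs, h7⟩ := hκ W hW
        refine sgn h2 hq (q' := q' - ℓ ^ K * s) ?_ h4 ?_
        · exact (SOR.Rl ℓ).sub_mem hq' ((SOR.Rl ℓ).mul_mem (pow_mem (natCast_mem (SOR.Rl ℓ) ℓ) K) hs)
        · rw [h3, neg_neg]
          have h8 : (κ W : ℚ) = D.U W - ℓ ^ (K + 1) * s := by linarith
          rw [h8, h6, pow_succ]
          ring
  have hk : ((ℓ ^ 2 : ℕ) : ℤ) ∣ ((IrrE M B.e).ncard : ℤ) - (IrrE M B'.e).ncard := by
    refine hK G' B' D' hB' hD' (hPE r hr ⟨m, hm⟩) ?_ ?_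
    · intro W hW
      rw [hU W hW]
      obtain ⟨s, hs, h7⟩ := hκ W hW
      refine ⟨ℓ * s, (SOR.Rl ℓ).mul_mem (natCast_mem (SOR.Rl ℓ) ℓ) hs, ?_⟩
      rw [h7, pow_succ]
      ring
    · intro W hW g hg hgW
      rcases rw_or hF hW with ⟨-, h⟩ | h
      · rw [(hD.f1 W hW h).2 g, (hD'.f1 W hW h).2 g]
      · by_cases hs : g ∈ St E₀ W
        · rw [hDs W h g hs, hDs' W h g hs]
        · have h1 := hDf W h g hg hgW hs
          have h3 := hDf' W h g hg hgW hs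
          have h4 := hfxe ℓ M hM h2 V₀ G G' E₀ hF B B' hB.toSb hB'.toSb hLam W h.1 g hg hgW
          rw [h4] at h1
          linarith
  -- the numbers of characters
  have h3 := (hkld ℓ M hM h2 V₀ G E₀ hF B hB.toSb).1
  have h4 := (hkld ℓ M hM h2 V₀ G' E₀ hF B' hB'.toSb).1
  obtain ⟨hl1, hl2, -⟩ := hlme ℓ M hM h2 V₀ G E₀ hF B hB.toSb
  obtain ⟨hl1', hl2', -⟩ := hlme ℓ M hM h2 V₀ G' E₀ hF B' hB'.toSb
  have b₀ := H31.ln_bot hB.toSb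
  have b₁ := H31.ln_bot hB'.toSb
  obtain ⟨T₀, hT₀⟩ : ∃ T : Subgroup V₀ → ℕ, T = fun W => ln (fun t : B.C W => B.b W t) :=
    ⟨_, rfl⟩
  obtain ⟨T₁, hT₁⟩ : ∃ T : Subgroup V₀ → ℕ, T = fun W => ln (fun t : B'.C W => B'.b W t) :=
    ⟨_, rfl⟩
  have s₀ : ∀ W, ln (fun t : B.C W => B.b W t) = T₀ W := fun W => by rw [hT₀]
  have s₁ : ∀ W, ln (fun t : B'.C W => B'.b W t) = T₁ W := fun W => by rw [hT₁]
  simp only [s₀] at h3 hl1 b₀
  simp only [s₁] at h4 hl1' b₁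
  have hfV : Fintype V₀ := Fintype.ofFinite V₀
  rw [finsum_eq_sum_of_fintype] at h3 h4
  have hfin : Finite (MulAut V₀) := finE
  have hE : (Nat.card E₀ : ℤ) ≠ 0 := by
    have : 0 < Nat.card E₀ := Nat.card_pos
    exact_mod_cast this.ne'
  have z₀ : (Nat.card E₀ : ℤ) * ((IrrE M B.e).ncard : ℤ) =
      ∑ v : V₀, (Nat.card (Es E₀ v) : ℤ) * (T₀ (Subgroup.zpowers v) : ℤ) := by exact_mod_cast h3
  have z₁ : (Nat.card E₀ : ℤ) * ((IrrE M B'.e).ncard : ℤ) =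
      ∑ v : V₀, (Nat.card (Es E₀ v) : ℤ) * (T₁ (Subgroup.zpowers v) : ℤ) := by exact_mod_cast h4
  have key : ∀ v : V₀, v ≠ 1 → (T₀ (Subgroup.zpowers v) : ℤ) = T₁ (Subgroup.zpowers v) := by
    intro v hv
    rw [hl1 v hv, hl1' v hv, hLam (Es E₀ v) (fun σ hσ => hσ.1)]
  have hd : (Nat.card E₀ : ℤ) * (((IrrE M B.e).ncard : ℤ) - (IrrE M B'.e).ncard) =
      (Nat.card E₀ : ℤ) * ((ln B.e : ℤ) - ln B'.e) := by
    rw [mul_sub, z₀, z₁, ← Finset.sum_sub_distrib, Finset.sum_eq_single (1 : V₀)]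
    · rw [H31.es_one, Subgroup.zpowers_one_eq_bot, b₀, b₁]
      ring
    · intro v _ hv
      rw [key v hv]
      ring
    · intro h
      exact absurd (Finset.mem_univ _) h
  have hd' := mul_left_cancel₀ hE hd
  rw [hd', hln, ← hl2', ← hLam E₀ le_rfl, hl2] at hk
  exact hk

end Pool.Agent.PP.SE.H4
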